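import Pool.Agent.U620.TG.C

/-!
# Quasi-tangled labelings: `2 (n - 1)! ≤ M(n) ≤ (5 / 6) n!`

`M(n)` is the largest number of quasi-tangled labelings (sorting time `n - 2`) of a poset with `n` elements.
We prove `2 (n - 1)! ≤ M(n)` and `6 M(n) ≤ 5 n!` for all `n ≥ 3`. The bounds in the problem are
`2 (n - 1)! - (n - 2)!` and `n!`.

Lower bound: two minimal elements below all the other elements. The quasi-tangled labelings are those
with the label `n` at a minimal element: it does not move, so it has the label `3` after `n - 3` promotions,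
and nothing is tangled since no element has exactly one lower element.

Upper bound (every poset): if `y < z` are out of order after `n - 3` promotions, then `y` has never moved, and the
elements in the position of `z` only go down. So the elements with the labels `n - 2`, `n - 1`, `n` were not in
order at the beginning. For at least `1/6` of the labelings they are in order.
-/

set_option autoImplicit false

namespace Pool.Agent.Results.MP_54b7d9_co.TwoSidedBounds

open Pool.Agent.W5h8.Tang Pool.Agent.U620.TG

/-- The numbers of quasi-tangled labelings of the posets with `n` elements. -/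
def counts (n : ℕ) : Set ℕ :=
  {m | ∃ (P : Type) (_ : PartialOrder P) (_ : Fintype P), Fintype.card P = n ∧
    m = {L : P → ℕ | IsQuasiTangled L}.ncard}

/-- `M(n)`: the largest number of quasi-tangled labelings of a poset with `n` elements. -/
noncomputable def M (n : ℕ) : ℕ := sSup (counts n)

theorem quasi_iff {P : Type} [PartialOrder P] [Fintype P] {N : ℕ} (hN : Fintype.card P = N + 3) :
    {L : P → ℕ | IsQuasiTangled L} =
      {L : P → ℕ | IsState 0 L ∧ Sorted 0 (run 0 L (N + 1)) ∧ ¬ Sorted 0 (run 0 L N)} := by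
  ext L
  constructor
  · rintro ⟨hL, k, hk, hs⟩
    have hL' := (isLabeling_iff L).1 hL
    have e : k = N + 1 := by omega
    subst e
    refine ⟨hL', (isLinExt_iff hL' _).1 hs.1, fun h => ?_⟩
    have h1 : N + 1 ≤ N := hs.2 ((isLinExt_iff hL' N).2 h)
    omega
  · rintro ⟨hL, h1, h2⟩
    refine ⟨(isLabeling_iff L).2 hL, N + 1, by omega, (isLinExt_iff hL _).2 h1, fun j hj => ?_⟩
    by_contra h
    exact h2 (sorted_persist hL (by omega) ((isLinExt_iff hL j).1 hj))

theorem upper {P : Type} [PartialOrder P] [Fintype P] {N : ℕ} (hN : Fintype.card P = N + 3) :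
    6 * {L : P → ℕ | IsQuasiTangled L}.ncard ≤ 5 * (N + 3).factorial := by
  have h1 := card_unsorted (P := P) hN
  rw [hN] at h1
  have h2 : {L : P → ℕ | IsQuasiTangled L}.ncard ≤
      {L : P → ℕ | IsState 0 L ∧ ¬ Sorted 0 (run 0 L N)}.ncard := by
    rw [quasi_iff hN]
    exact Set.ncard_le_ncard (fun L hL => ⟨hL.1, hL.2.2⟩)
      ((finite_states (P := P) 0).subset fun _ hL => hL.1)
  omega

/-- For every `n ≥ 3`, `M(n)` is attained and `2 (n - 1)! ≤ M(n) ≤ (5 / 6) n!`. -/
theorem result (n : ℕ) (hn : 3 ≤ n) :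
    IsGreatest (counts n) (M n) ∧ 2 * (n - 1).factorial ≤ M n ∧ 6 * M n ≤ 5 * n.factorial := by
  obtain ⟨N, rfl⟩ := Nat.exists_eq_add_of_le' hn
  have hub : ∀ m ∈ counts (N + 3), 6 * m ≤ 5 * (N + 3).factorial := by
    rintro m ⟨P, i1, i2, hc, rfl⟩
    exact upper hc
  have hbdd : BddAbove (counts (N + 3)) := ⟨5 * (N + 3).factorial, fun m hm => by
    have := hub m hm
    omega⟩
  have hK : {L : K N → ℕ | IsQuasiTangled L}.ncard ∈ counts (N + 3) :=
    ⟨K N, inferInstance, inferInstance, card_K N, rfl⟩
  have hmem : M (N + 3) ∈ counts (N + 3) := Nat.sSup_mem ⟨_, hK⟩ hbdd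
  refine ⟨⟨hmem, fun m hm => le_csSup hbdd hm⟩, ?_, hub _ hmem⟩
  have h1 := card_K_quasi N
  rw [← quasi_iff (card_K N)] at h1
  have e : N + 3 - 1 = N + 2 := rfl
  rw [e]
  exact h1.trans (le_csSup hbdd hK)

end Pool.Agent.Results.MP_54b7d9_co.TwoSidedBounds
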